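import Pool.Agent.N70.EQ.Stm

/-!
The piece GC of the project EQ (helper70): the characters detect the abelianization.
-/

namespace Pool.Agent.N498.EQ

open Pool.Agent.H391R2

/-- the product of the classes -/
def cp (G : Type) [Group G] (n : ℕ) : Wr G n →* Abelianization G where
  toFun := fun w => ∏ i, Abelianization.of (w.left i)
  map_one' := by
    apply Finset.prod_eq_one
    intro i _
    exact map_one _
  map_mul' := fun a b => by
    have h1 : ∀ i, Abelianization.of ((a * b).left i) =
        Abelianization.of (a.left i) * Abelianization.of (b.left (a.right⁻¹ i)) := fun i => by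
      rw [wr_mul_left, map_mul]
    rw [Finset.prod_congr rfl (fun i _ => h1 i), Finset.prod_mul_distrib]
    congr 1
    exact Equiv.prod_comp (a.right⁻¹) (fun i => Abelianization.of (b.left i))

/-- the sign -/
def sg (G : Type) [Group G] (n : ℕ) : Wr G n →* ℤˣ :=
  Equiv.Perm.sign.comp SemidirectProduct.rightHom

lemma card_dvd {G : Type} [Group G] [Finite G] (J : Subgroup (Abelianization G)) :
    Monoid.exponent (Abelianization G ⧸ J) ∣ Nat.card G :=
  (Group.exponent_dvd_nat_card).trans ((Subgroup.card_quotient_dvd_card J).trans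
    (Subgroup.card_quotient_dvd_card (commutator G)))

lemma exists_char {G C : Type} [Group G] [Finite G] [Field C]
    [HasEnoughRootsOfUnity C (Nat.card G)] (J : Subgroup (Abelianization G)) (hJ : J ≠ ⊤) :
    ∃ φ : Abelianization G →* Cˣ, (∀ a ∈ J, φ a = 1) ∧ φ.comp Abelianization.of ≠ 1 := by
  obtain ⟨a0, ha0⟩ : ∃ a0, a0 ∉ J := by
    by_contra hcon
    push Not at hcon
    exact hJ (eq_top_iff.mpr fun a _ => hcon a)
  have : NeZero (Nat.card G) := ⟨Nat.card_pos.ne'⟩
  have : Finite (Abelianization G) := Finite.of_surjective _ (QuotientGroup.mk'_surjective (commutator G))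
  have : HasEnoughRootsOfUnity C (Monoid.exponent (Abelianization G ⧸ J)) :=
    HasEnoughRootsOfUnity.of_dvd C (card_dvd J)
  have hne : (QuotientGroup.mk a0 : Abelianization G ⧸ J) ≠ 1 := by
    intro h
    exact ha0 ((QuotientGroup.eq_one_iff a0).mp h)
  obtain ⟨φ, hφ⟩ := CommGroup.exists_apply_ne_one_of_hasEnoughRootsOfUnity
    (Abelianization G ⧸ J) C hne
  refine ⟨φ.comp (QuotientGroup.mk' J), ?_, ?_⟩
  · intro a ha
    rw [MonoidHom.comp_apply, QuotientGroup.mk'_apply, (QuotientGroup.eq_one_iff a).mpr ha, map_one]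
  · intro h
    apply hφ
    obtain ⟨g0, hg0⟩ := QuotientGroup.mk'_surjective (commutator G) a0
    have h1 := DFunLike.congr_fun h g0
    rw [← hg0]
    exact h1

theorem t_gc : Pool.Agent.N70.EQ.St_gc := by
  intro G C _ _ _ _ n H hH hθ w hw
  have hJ : (H ⊓ (sg G n).ker).map (cp G n) = ⊤ := by
    by_contra hcon
    obtain ⟨φ, h1, h2⟩ := exists_char (C := C) _ hcon
    obtain ⟨x, hxH, hxs, hx⟩ := hθ _ h2
    apply hx
    have h3 : ∏ i, (φ.comp Abelianization.of) (x.left i) = φ (cp G n x) := by
      change _ = φ (∏ i, Abelianization.of (x.left i))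
      rw [map_prod]
      rfl
    rw [h3]
    exact h1 _ (Subgroup.mem_map_of_mem _ ⟨hxH, MonoidHom.mem_ker.mpr hxs⟩)
  have hmem : cp G n w ∈ (H ⊓ (sg G n).ker).map (cp G n) := by rw [hJ]; exact Subgroup.mem_top _
  obtain ⟨x, ⟨hxH, hxs⟩, hx⟩ := hmem
  have hws : sg G n w = 1 := hw
  have h4 : w * x⁻¹ ∈ H := by
    apply hH
    · change sg G n (w * x⁻¹) = 1
      rw [map_mul, map_inv, hws, MonoidHom.mem_ker.mp hxs, inv_one, mul_one]
    · change cp G n (w * x⁻¹) = 1
      rw [map_mul, map_inv, hx, mul_inv_cancel]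
  have h5 := H.mul_mem h4 hxH
  rwa [inv_mul_cancel_right] at h5

end Pool.Agent.N498.EQ
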